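import Mathlib
import Pool.Agent.P.MP_cf6cc5_co.CAll

set_option autoImplicit false

namespace Pool.Agent.Results.MP_cf6cc5_co.ChromaticOrder

/-- For every `q ≥ 2` the largest `q`-colour ordered Ramsey number `R` of an ordered matching on
`n` vertices with interval chromatic number at most `k` is
`n ^ Θ((log k) ^ (q - 1) / (log log k) ^ (q - 2))`, uniformly in `3 ≤ k ≤ n`. -/
theorem result (q : ℕ) (hq : 2 ≤ q) :
    ∃ c C : ℝ, 0 < c ∧ 0 < C ∧ ∀ n k : ℕ, 3 ≤ k → k ≤ n → Even n → ∃ R : ℕ,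
      IsLeast {N : ℕ | ∀ M : SimpleGraph (Fin n), (∀ v, ∃! w, M.Adj v w) →
        (∃ ι : Fin n → Fin k, Monotone ι ∧ ∀ a b : Fin n, M.Adj a b → ι a ≠ ι b) →
        ∀ col : Sym2 (Fin N) → Fin q, ∃ f : Fin n → Fin N, StrictMono f ∧
          ∃ i : Fin q, ∀ a b : Fin n, M.Adj a b → col s(f a, f b) = i} R ∧
      (n : ℝ) ^ (c * (Real.log k ^ (q - 1) / Real.log (Real.log k) ^ (q - 2))) < R ∧
      (R : ℝ) ≤ (n : ℝ) ^ (C * (Real.log k ^ (q - 1) / Real.log (Real.log k) ^ (q - 2))) := by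
  obtain ⟨r, rfl⟩ : ∃ r, q = r + 2 := ⟨q - 2, by omega⟩
  obtain ⟨c, hc, hlow⟩ := Pool.Agent.P.MP_cf6cc5_co.lower_all r
  obtain ⟨C, hC, hup⟩ := Pool.Agent.P.MP_cf6cc5_co.upper_all r
  refine ⟨c, C, hc, hC, fun n k hk hkn hev => ?_⟩
  obtain ⟨M, hM, hι, hcol⟩ := hlow n k hk hkn hev
  obtain ⟨N₀, hN₀, hmem⟩ := hup n k hk hkn
  set S := {N : ℕ | ∀ M : SimpleGraph (Fin n), (∀ v, ∃! w, M.Adj v w) →
    (∃ ι : Fin n → Fin k, Monotone ι ∧ ∀ a b : Fin n, M.Adj a b → ι a ≠ ι b) →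
    ∀ col : Sym2 (Fin N) → Fin (r + 2), ∃ f : Fin n → Fin N, StrictMono f ∧
      ∃ i : Fin (r + 2), ∀ a b : Fin n, M.Adj a b → col s(f a, f b) = i} with hS
  have hmem' : N₀ ∈ S := hmem
  have hR : sInf S ∈ S := Nat.sInf_mem ⟨N₀, hmem'⟩
  refine ⟨sInf S, ⟨hR, fun N hN => Nat.sInf_le hN⟩, ?_,
    le_trans (by exact_mod_cast Nat.sInf_le hmem') hN₀⟩
  by_contra hle
  obtain ⟨col, hno⟩ := hcol (sInf S) (not_lt.1 hle)
  exact hno (hR M hM hι col)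

end Pool.Agent.Results.MP_cf6cc5_co.ChromaticOrder
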