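import Mathlib
import Pool.Agent.P.MP_cf6cc5_co.CSwitch

set_option autoImplicit false

namespace Pool.Agent.Results.MP_cf6cc5_co.TypicalOrder

/-- For every `q ≥ 2`, all but a `4 / √n` share of the ordered matchings on `n` vertices have
`q`-colour ordered Ramsey number `n ^ Θ((log n) ^ (q - 1) / (log log n) ^ (q - 2))`. -/
theorem result (q : ℕ) (hq : 2 ≤ q) :
    ∃ c C : ℝ, 0 < c ∧ 0 < C ∧ ∃ n₀ : ℕ, ∀ n : ℕ, n₀ ≤ n →
      (1 - 4 / Real.sqrt n) *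
          ({M : SimpleGraph (Fin n) | ∀ v, ∃! w, M.Adj v w}.ncard : ℝ) ≤
        ({M : SimpleGraph (Fin n) | (∀ v, ∃! w, M.Adj v w) ∧ ∃ R : ℕ,
          IsLeast {N : ℕ | ∀ col : Sym2 (Fin N) → Fin q, ∃ f : Fin n → Fin N, StrictMono f ∧
            ∃ i : Fin q, ∀ a b : Fin n, M.Adj a b → col s(f a, f b) = i} R ∧
          (n : ℝ) ^ (c * (Real.log n ^ (q - 1) / Real.log (Real.log n) ^ (q - 2))) < R ∧
          (R : ℝ) ≤ (n : ℝ) ^ (C * (Real.log n ^ (q - 1) / Real.log (Real.log n) ^ (q - 2)))}.ncard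
          : ℝ) := by
  obtain ⟨r, rfl⟩ : ∃ r, q = r + 2 := ⟨q - 2, by omega⟩
  obtain ⟨c, hc, n₀, hn₀⟩ := Pool.Agent.P.MP_cf6cc5_co.lower_typ r
  obtain ⟨C, hC, n₁, hn₁⟩ := Pool.Agent.P.MP_cf6cc5_co.upper_asym r
  refine ⟨c, C, hc, hC, max n₀ n₁, fun n hn => ?_⟩
  obtain ⟨S, hS, hcard, hlow⟩ := hn₀ n (le_of_max_le_left hn)
  obtain ⟨N₀, hN₀, hup⟩ := hn₁ n (le_of_max_le_right hn)
  have h1 : {M : SimpleGraph (Fin n) | ∀ v, ∃! w, M.Adj v w} =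
      (Pool.Agent.P.MP_cf6cc5_co.pms n : Set (SimpleGraph (Fin n))) := by
    ext M
    exact Pool.Agent.P.MP_cf6cc5_co.mem_pms.symm
  rw [h1, Set.ncard_coe_finset]
  refine hcard.trans ?_
  rw [← Set.ncard_coe_finset, Nat.cast_le]
  refine Set.ncard_le_ncard (fun M hM => ?_) (Set.toFinite _)
  have hM' := Pool.Agent.P.MP_cf6cc5_co.mem_pms.1 (hS hM)
  set T := {N : ℕ | ∀ col : Sym2 (Fin N) → Fin (r + 2), ∃ f : Fin n → Fin N, StrictMono f ∧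
    ∃ i : Fin (r + 2), ∀ a b : Fin n, M.Adj a b → col s(f a, f b) = i} with hT
  have hmem : N₀ ∈ T := hup M (fun v w w' h h' => (hM' v).unique h h') N₀ le_rfl
  have hR : sInf T ∈ T := Nat.sInf_mem ⟨N₀, hmem⟩
  refine ⟨hM', sInf T, ⟨hR, fun N hN => Nat.sInf_le hN⟩, ?_,
    le_trans (by exact_mod_cast Nat.sInf_le hmem) hN₀⟩
  by_contra hle
  obtain ⟨col, hno⟩ := hlow M hM (sInf T) (not_lt.1 hle)
  exact hno (hR col)

end Pool.Agent.Results.MP_cf6cc5_co.TypicalOrder
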